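import Pool.Agent.H31.LG

open Pool.Agent.H31.LG

theorem Pool.Agent.Results.MP_b44554_al.Main.result :
    ∃ S T : Cond, Equiv S T ∧ LG S ∧ ¬ LG T ∧
      SatOn T (fun _ => (Set.univ : Set (_ → Bool))) Set.univ :=
  ⟨S1, S2, equiv, lg1, nlg2, cons⟩
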